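import Pool.Agent.H.MP_814c9d_an.Main

namespace Pool.Agent.Results.MP_814c9d_an.NoCopy

open Cardinal Pool.Agent.H.MP_814c9d_an Pool.Agent.Lib.helper22.SeqSpace

variable (X : Type) [NormedAddCommGroup X] [NormedSpace ℝ X]

def Octa (κ : Cardinal.{0}) : Prop :=
  ∀ ε > 0, ∀ Y : Submodule ℝ X, (∃ D ⊆ (Y : Set X), #D ≤ κ ∧ (Y : Set X) ⊆ closure D) →
    ∃ x : X, ‖x‖ = 1 ∧ ∀ (l : ℝ), ∀ y ∈ Y, (1 - ε) * (|l| + ‖y‖) ≤ ‖l • x + y‖

def HasCopy (A : Type) : Prop :=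
  ∃ Z : Submodule ℝ X, Nonempty (lp (fun _ : A => ℝ) 1 ≃L[ℝ] Z)

theorem result (κ : Cardinal.{0}) (hκ : ℵ₀ ≤ κ) : ∃ (X : Type) (_ : NormedAddCommGroup X)
    (_ : NormedSpace ℝ X) (_ : CompleteSpace X), Octa X κ ∧
    ∀ A : Type, ℵ₀ < #A → ¬ HasCopy X A := by
  obtain ⟨Γ, hΓ⟩ : ∃ Γ : Type, κ < #Γ := ⟨(Order.succ κ).out, by rw [mk_out]; exact Order.lt_succ κ⟩
  refine ⟨Y Γ, inferInstance, inferInstance, inferInstance, ?_, ?_⟩
  · rintro ε hε Z ⟨D, -, h1, h2⟩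
    let B (d : D) : Set Γ := Prod.snd '' {i | φ i d.1 ≠ 0}
    have a0 : ∀ d, #(B d) ≤ κ := fun d =>
      (le_aleph0_iff_set_countable.2 ((cnt d.1).image _)).trans hκ
    have a : #(⋃ d, B d) ≤ κ := (mk_iUnion_le B).trans
      ((mul_le_mul' h1 (ciSup_le' a0)).trans_eq (mul_eq_self hκ))
    obtain ⟨γ, hγ⟩ := (Set.ne_univ_iff_exists_notMem (⋃ d, B d)).1 fun c => by
      rw [c, mk_univ] at a
      exact not_lt.2 a hΓ
    obtain ⟨n, hn⟩ := exists_nat_one_div_lt hε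
    refine ⟨b (n, γ), norm_x _ _, fun l y hy => le_trans ?_ (oct (n, γ) y ?_ l)⟩
    · nlinarith [abs_nonneg l, norm_nonneg y]
    · refine closure_minimal (t := {y | φ (n, γ) y = 0}) (fun d hd => not_not.1 fun c => hγ ?_)
        (isClosed_eq (φ _).continuous continuous_const) (h2 hy)
      exact Set.mem_iUnion.2 ⟨⟨d, hd⟩, _, c, rfl⟩
  · rintro A hA ⟨Z, ⟨e⟩⟩
    have := aleph0_lt_mk_iff.1 hA
    refine nol1 (Z.subtypeL ∘L e.toContinuousLinearMap) (‖e.symm.toContinuousLinearMap‖ + 1)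
      (by positivity) fun u => ?_
    have := e.symm.toContinuousLinearMap.le_opNorm (e u)
    rw [show e.symm.toContinuousLinearMap (e u) = u from e.symm_apply_apply u] at this
    exact this.trans (mul_le_mul_of_nonneg_right (by linarith) (norm_nonneg _))

end Pool.Agent.Results.MP_814c9d_an.NoCopy
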